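import Pool.Agent.H6.AK.Stmts

/-!
# LIP: a Lipschitz function separating two sets at distance greater than `r` (MP_4e8966_co)
-/

set_option autoImplicit false

namespace Pool.Agent.H57.AK

open Pool.Agent.H6.AK

theorem LIP_thm : LIPStmt := by
  classical
  intro m r A B hr hAB
  by_cases hA : A.Nonempty
  · let d : (Fin m → Bool) → ℕ := fun x => sInf {n | ∃ a ∈ A, hammingDist x a = n}
    have hmem : ∀ x, ∃ a ∈ A, hammingDist x a = d x := by
      intro x
      have hne : {n | ∃ a ∈ A, hammingDist x a = n}.Nonempty := by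
        obtain ⟨a, ha⟩ := hA
        exact ⟨hammingDist x a, a, ha, rfl⟩
      exact Nat.sInf_mem hne
    have hle : ∀ x, ∀ a ∈ A, d x ≤ hammingDist x a := by
      intro x a ha
      exact Nat.sInf_le ⟨a, ha, rfl⟩
    have htri : ∀ x y, d x ≤ hammingDist x y + d y := by
      intro x y
      obtain ⟨a, ha, had⟩ := hmem y
      calc d x ≤ hammingDist x a := hle x a ha
        _ ≤ hammingDist x y + hammingDist y a := hammingDist_triangle x y a
        _ = hammingDist x y + d y := by rw [had]
    have hr0 : (0 : ℝ) < (r : ℝ) := by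
      have : 0 < r := hr
      exact_mod_cast this
    refine ⟨fun x => 1 - min 1 ((d x : ℝ) / (r : ℝ)), ?_, ?_, ?_, ?_⟩
    · intro x
      have h0 : 0 ≤ (d x : ℝ) / (r : ℝ) := by positivity
      have h1 : min 1 ((d x : ℝ) / (r : ℝ)) ≤ 1 := min_le_left _ _
      have h2 : 0 ≤ min 1 ((d x : ℝ) / (r : ℝ)) := le_min zero_le_one h0
      constructor
      · show (0 : ℝ) ≤ 1 - min 1 ((d x : ℝ) / (r : ℝ))
        linarith
      · show 1 - min 1 ((d x : ℝ) / (r : ℝ)) ≤ 1
        linarith
    · intro x hx
      have h0 : d x = 0 := by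
        have := hle x x hx
        rw [hammingDist_self] at this
        omega
      show 1 - min 1 ((d x : ℝ) / (r : ℝ)) = 1
      rw [h0]
      simp
    · intro x hx
      have h0 : r < d x := by
        obtain ⟨a, ha, had⟩ := hmem x
        have := hAB a ha x hx
        rw [hammingDist_comm, had] at this
        exact this
      have h1 : (1 : ℝ) ≤ (d x : ℝ) / (r : ℝ) := by
        rw [le_div_iff₀ hr0, one_mul]
        exact_mod_cast h0.le
      show 1 - min 1 ((d x : ℝ) / (r : ℝ)) = 0
      rw [min_eq_left h1]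
      ring
    · have key : ∀ x y, min 1 ((d x : ℝ) / (r : ℝ)) ≤
          min 1 ((d y : ℝ) / (r : ℝ)) + (hammingDist x y : ℝ) * (1 / (r : ℝ)) := by
        intro x y
        have hnn : 0 ≤ (hammingDist x y : ℝ) * (1 / (r : ℝ)) := by positivity
        have h1 : (d x : ℝ) / (r : ℝ) ≤ (d y : ℝ) / (r : ℝ) +
            (hammingDist x y : ℝ) * (1 / (r : ℝ)) := by
          have h2 : (d x : ℝ) ≤ (hammingDist x y : ℝ) + (d y : ℝ) := by exact_mod_cast htri x y
          have h3 : (d x : ℝ) / (r : ℝ) ≤ ((hammingDist x y : ℝ) + (d y : ℝ)) / (r : ℝ) :=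
            div_le_div_of_nonneg_right h2 hr0.le
          calc (d x : ℝ) / (r : ℝ) ≤ ((hammingDist x y : ℝ) + (d y : ℝ)) / (r : ℝ) := h3
            _ = (d y : ℝ) / (r : ℝ) + (hammingDist x y : ℝ) * (1 / (r : ℝ)) := by ring
        rcases le_total 1 ((d y : ℝ) / (r : ℝ)) with h | h
        · rw [min_eq_left h]
          have := min_le_left (1 : ℝ) ((d x : ℝ) / (r : ℝ))
          linarith
        · rw [min_eq_right h]
          exact (min_le_right _ _).trans h1
      intro x y
      show |(1 - min 1 ((d x : ℝ) / (r : ℝ))) - (1 - min 1 ((d y : ℝ) / (r : ℝ)))| ≤ _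
      rw [abs_le]
      have h1 := key x y
      have h2 := key y x
      rw [hammingDist_comm y x] at h2
      constructor <;> linarith
  · rw [Set.not_nonempty_iff_eq_empty] at hA
    refine ⟨fun _ => 0, ?_, ?_, ?_, ?_⟩
    · intro x
      constructor <;> norm_num
    · intro x hx
      rw [hA] at hx
      exact absurd hx (Set.notMem_empty x)
    · intro x _
      rfl
    · intro x y
      have hnn : 0 ≤ (hammingDist x y : ℝ) * (1 / (r : ℝ)) := by positivity
      simpa using hnn

end Pool.Agent.H57.AK
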